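import Pool.Agent.R490.Lone
import Pool.Agent.L5helper4.RG.Om

set_option autoImplicit false

/-!
# Almost primes in almost all residue classes of EVERY modulus `q ≤ x / (C log x)`, at all heights

Montgomery's conjecture implies the asymptotic formula for the number of the primes `≤ x` in nearly all residue
classes modulo `q` for every `q ≤ x ^ (1 - ε)`.  Here the primes are replaced by the integers without prime factors
`≤ z = q ^ (1 / r)`.  For EVERY large modulus `q`, as soon as the expected number `T V` of such integers among the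
`a + q h`, `1 ≤ h ≤ T`, exceeds a constant, the asymptotic formula holds for almost all the reduced classes - also for
those of any interval of length `q ^ θ` - simultaneously for all `t ≤ T`, with an error of at most `ε T V`; and also
on average over the classes, with the largest error of every class.
-/

namespace Pool.Agent.Results.MP_848d44_nt.AlmostPrimesAllHeights

open Finset Filter

/-- `n` has no prime factor `≤ z`. -/
def Rough (z n : ℕ) : Prop := ∀ p : ℕ, p.Prime → p ≤ z → ¬ p ∣ n

open Classical in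
/-- The number of the `n = a + q h`, `1 ≤ h ≤ t`, without prime factors `≤ z`. -/
noncomputable def P (q z t a : ℕ) : ℕ := ((Icc 1 t).filter (fun h => Rough z (a + q * h))).card

/-- The product of `1 - 1 / p` over the primes `p ≤ z` which do not divide `q`. -/
noncomputable def V (q z : ℕ) : ℝ :=
  ∏ p ∈ (range (z + 1)).filter (fun p => p.Prime ∧ ¬ p ∣ q), (1 - 1 / (p : ℝ))

/-- The integers in `(Z, Z + Y]` which are prime to `q` (for `Y = q` one for each reduced residue class). -/
def R (q Z Y : ℕ) : Finset ℕ := (Ioc Z (Z + Y)).filter (fun a => a.Coprime q)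

lemma V_pos (q z : ℕ) : 0 < V q z := by
  unfold V
  apply Finset.prod_pos
  intro p hp
  have h2 := (mem_filter.1 hp).2.1.two_le
  have h3 : (2 : ℝ) ≤ p := by exact_mod_cast h2
  rw [sub_pos, div_lt_one (by linarith)]
  linarith

open Classical in
/-- (1) An integer `1 ≤ n ≤ q ^ B` without prime factors `≤ q ^ (1 / r)` has at most `B r` prime factors.
(2) For all `θ, ε > 0` there are `C` and `r₀` such that for `r ≥ r₀`, ALL large moduli `q`, `z = q ^ (1 / r)`, all
intervals `(Z, Z + Y]` with `Y ≥ q ^ θ` and all `T` with `T V ≥ C`: (a) for any choice of `t(a) ≤ T` the sum of the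
errors `|P(t(a), a) - t(a) V|` over the `a` of the interval prime to `q` is at most `ε T V Y φ(q) / q`; (b) for all but
`ε Y φ(q) / q` of the integers `a` of the interval prime to `q` the error `|P(t, a) - t V|` is at most `ε T V`
for ALL `t ≤ T`. -/
theorem result :
    (∀ B r q n : ℕ, 1 ≤ r → 2 ≤ q → 1 ≤ n → n ≤ q ^ B → Rough ⌊(q : ℝ) ^ (1 / (r : ℝ))⌋₊ n →
      n.primeFactorsList.length ≤ B * r) ∧
    ∀ θ ε : ℝ, 0 < θ → 0 < ε → ∃ (C : ℝ) (r0 : ℕ), 2 ≤ r0 ∧ ∀ r : ℕ, r0 ≤ r →
      ∀ᶠ q : ℕ in atTop, ∀ z : ℕ, z = ⌊(q : ℝ) ^ (1 / (r : ℝ))⌋₊ → ∀ Z Y : ℕ, (q : ℝ) ^ θ ≤ Y →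
      ∀ T : ℕ, C ≤ T * V q z →
        (∀ t : ℕ → ℕ, (∀ a, t a ≤ T) →
          ∑ a ∈ R q Z Y, |(P q z (t a) a : ℝ) - t a * V q z| ≤
            ε * (T * V q z * (Y * ((q.totient : ℝ) / q)))) ∧
        (((R q Z Y).filter (fun a => ∃ t ≤ T, ε * (T * V q z) < |(P q z t a : ℝ) - t * V q z|)).card : ℝ) ≤
          ε * (Y * ((q.totient : ℝ) / q)) := by
  refine ⟨?_, ?_⟩
  · intro B r Q n hr hQ hn hnB h
    exact Pool.Agent.L5helper4.RG.few hQ hr hn hnB (fun p hp hd => by
      by_contra hle
      exact h p hp (not_lt.1 hle) hd)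
  · intro θ ε hθ hε
    obtain ⟨e, he⟩ : ∃ e : ℝ, e = min (ε ^ 2) ε := ⟨_, rfl⟩
    have he0 : 0 < e := by rw [he]; exact lt_min (by positivity) hε
    obtain ⟨C, r1, hC, hr1, h1⟩ := Pool.Agent.R490.Lone.maxi θ e hθ he0
    refine ⟨C, r1, hr1, fun r hr => ?_⟩
    filter_upwards [h1 r hr] with q h2
    intro z hz Z Y hY T hT
    have hV0 : 0 < V q z := V_pos q z
    have hTV : 0 < T * V q z := lt_of_lt_of_le hC hT
    obtain ⟨N, hN⟩ : ∃ N, N = (Y : ℝ) * ((q.totient : ℝ) / q) := ⟨_, rfl⟩
    have hN0 : 0 ≤ N := by rw [hN]; positivity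
    have h3 : ∀ t : ℕ → ℕ, (∀ a, t a ≤ T) →
          ∑ a ∈ R q Z Y, |(P q z (t a) a : ℝ) - t a * V q z| ≤ e * (T * V q z * N) := by
      intro t ht
      have h4 := h2 z hz Z Y hY T hT t ht
      rw [hN]
      exact h4
    rw [← hN]
    refine ⟨fun t ht => (h3 t ht).trans ?_, ?_⟩
    · apply mul_le_mul_of_nonneg_right _ (by positivity)
      rw [he]
      exact min_le_right _ _
    · obtain ⟨t, ht⟩ : ∃ t : ℕ → ℕ, t = fun a =>
        if h : ∃ t ≤ T, ε * (T * V q z) < |(P q z t a : ℝ) - t * V q z| then h.choose else 0 := ⟨_, rfl⟩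
      have ht1 : ∀ a, t a ≤ T := by
        intro a
        rw [ht]
        by_cases h : ∃ t ≤ T, ε * (T * V q z) < |(P q z t a : ℝ) - t * V q z|
        · simp only [h, dif_pos]
          exact h.choose_spec.1
        · simp only [h, dif_neg, not_false_iff]
          exact Nat.zero_le _
      have ht2 : ∀ a, (∃ t ≤ T, ε * (T * V q z) < |(P q z t a : ℝ) - t * V q z|) →
          ε * (T * V q z) < |(P q z (t a) a : ℝ) - t a * V q z| := by
        intro a h
        rw [ht]
        simp only [h, dif_pos]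
        exact h.choose_spec.2
      have h4 := h3 t ht1
      obtain ⟨Bd, hBd⟩ : ∃ Bd, Bd = (R q Z Y).filter
        (fun a => ∃ t ≤ T, ε * (T * V q z) < |(P q z t a : ℝ) - t * V q z|) := ⟨_, rfl⟩
      rw [← hBd]
      have h5 : (Bd.card : ℝ) * (ε * (T * V q z)) ≤ ∑ a ∈ R q Z Y, |(P q z (t a) a : ℝ) - t a * V q z| := by
        calc (Bd.card : ℝ) * (ε * (T * V q z)) = ∑ a ∈ Bd, ε * (T * V q z) := by
              rw [Finset.sum_const, nsmul_eq_mul]
          _ ≤ ∑ a ∈ Bd, |(P q z (t a) a : ℝ) - t a * V q z| := by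
              apply Finset.sum_le_sum
              intro a ha
              rw [hBd, mem_filter] at ha
              exact (ht2 a ha.2).le
          _ ≤ _ := by
              apply Finset.sum_le_sum_of_subset_of_nonneg
              · rw [hBd]
                exact Finset.filter_subset _ _
              · intro _ _ _
                exact abs_nonneg _
      have h6 : (Bd.card : ℝ) * (ε * (T * V q z)) ≤ (ε * N) * (ε * (T * V q z)) := by
        refine (h5.trans h4).trans ?_
        have h7 : e ≤ ε ^ 2 := by rw [he]; exact min_le_left _ _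
        calc e * (T * V q z * N) ≤ ε ^ 2 * (T * V q z * N) := mul_le_mul_of_nonneg_right h7 (by positivity)
          _ = _ := by ring
      exact le_of_mul_le_mul_right h6 (by positivity)

end Pool.Agent.Results.MP_848d44_nt.AlmostPrimesAllHeights
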