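import Pool.Agent.L5helper10.QV.Om

/-!
# Errors of the conjectured size for every modulus, in every range

Unconditionally and for EVERY large modulus `q`, in short windows of exponents `log x / log q` around the multiples of
any `c` in a bounded interval there are `x` and a reduced residue class whose error term is at least
`K √(x log q / φ(q))`, with `K` as close to `1` as we like. Montgomery's conjecture bounds the error term by
`x ^ (1 / 2 + ε) / √q`. With `m = 2` there is one window only, and its half-length `h` may be any number above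
`3 - √6 = 0.55...`. See the files `Pool.Agent.L5helper10.QV` for the proof.
-/

set_option autoImplicit false

namespace Pool.Agent.Results.MP_848d44_nt.EveryModulusOmega

open Finset

/-- `ψ(x; q, a)`: the sum of `Λ(n)` over the `n ≤ x` with `n ≡ a mod q`. -/
noncomputable def psi (x : ℝ) (q a : ℕ) : ℝ :=
  ∑ n ∈ (Icc 1 ⌊x⌋₊).filter (fun n => n ≡ a [MOD q]), ArithmeticFunction.vonMangoldt n

/-- Let `m ≥ 2`, `0 < h ≤ 1`, `K ≥ 0` with `K ² (m - 1) < m - 1 / h - h / 3`, and let `B` be real. For all sufficiently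
large `q` and ALL `c` in `[1 + h, B]` there are an integer `1 ≤ k < m`, a real `x` in `[q ^ (k c - h), q ^ (k c + h)]`
and a reduced residue class `a` modulo `q` with `|ψ(x; q, a) - x / φ(q)| ≥ K √(x log q / φ(q))`. -/
theorem result : ∀ (m : ℕ) (h K B : ℝ), 2 ≤ m → 0 < h → h ≤ 1 → 0 ≤ K → K ^ 2 * (m - 1) < m - 1 / h - h / 3 →
    ∃ q₀ : ℕ, ∀ q : ℕ, q₀ ≤ q → ∀ c : ℝ, 1 + h ≤ c → c ≤ B → ∃ k : ℕ, 1 ≤ k ∧ k < m ∧
      ∃ x : ℝ, (q : ℝ) ^ (k * c - h) ≤ x ∧ x ≤ (q : ℝ) ^ (k * c + h) ∧
        ∃ a : ℕ, a < q ∧ a.Coprime q ∧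
          K * Real.sqrt (x * Real.log q / Nat.totient q) ≤ |psi x q a - x / Nat.totient q| := by
  intro m h K B hm h0 h1 hK0 hK
  exact Filter.eventually_atTop.1 (Pool.Agent.L5helper10.QV.omega_unif m hm h B K h0 h1 hK0 hK)

end Pool.Agent.Results.MP_848d44_nt.EveryModulusOmega
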