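import Pool.Agent.N625.GW.D
import Pool.Agent.N625.DY.J

/-!
# Primes in progressions to all moduli `≤ x ^ (1 - ε)`, on average over the residues whose digits label the walks in a
graph

Absolute values over all moduli and arbitrary heights inside; the residue is averaged, with arbitrary coefficients, over
the integers whose digits are the labels of the walks between two vertices of an (infinite) graph.

The two ingredients are in the starting files: the class of the walks (`Pool.Agent.N625.GW.w_cls`) and the average law for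
a class (`Pool.Agent.N625.DY.cls_avg`, `Pool.Agent.TH872.An.av_law`).
-/

set_option autoImplicit false

namespace Pool.Agent.Results.MP_848d44_nt.WalkAverages

open Finset

/-- The digits `a < b` act on the set `X` of the vertices: an edge with the label `a` leads from `x` to `y` if
`δ x a = some y` (at most one edge with the label `a` starts at `x`). The number of the edges from `x` to `y` equals the
number of the edges from `y` to `x`, and at least two edges start at every vertex. The graph may be infinite. -/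
structure Graph {X : Type} (b : ℕ) (δ : X → ℕ → Option X) : Prop where
  symm : ∀ x y : X, {a : ℕ | a < b ∧ δ x a = some y}.ncard = {a : ℕ | a < b ∧ δ y a = some x}.ncard
  two : ∀ x : X, ∃ a a' : ℕ, a < a' ∧ a' < b ∧ (δ x a).isSome ∧ (δ x a').isSome

open Classical in
/-- The integers `v < b ^ k` whose `k` digits in base `b`, from the most significant to the least significant one (the
digit number `i`, `0 ≤ i < k`, from the left is `v / b ^ (k - 1 - i) % b`), are the labels of a walk from `x` to `y`. -/
noncomputable def walks {X : Type} (b : ℕ) (δ : X → ℕ → Option X) (k : ℕ) (x y : X) : Finset ℕ :=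
  (range (b ^ k)).filter fun v =>
    ((List.range k).map fun i => v / b ^ (k - 1 - i) % b).foldl (fun s a => s.bind fun z => δ z a) (some x) = some y

/-- `ψ(x; q, a)`: the sum of `Λ(n)` over the `n ≤ x` with `n ≡ a (mod q)`. -/
noncomputable def psi (x q a : ℕ) : ℝ :=
  ∑ n ∈ (Icc 1 x).filter (fun n => n ≡ a [MOD q]), ArithmeticFunction.vonMangoldt n

/-- The sum of `w(v) (ψ(x; q, a) - x / φ(q))` over the elements `v` of `S` for which the residue `a = c + κ v` is positive
and coprime to `q`. -/
noncomputable def total (S : Finset ℕ) (κ c : ℤ) (w : ℕ → ℝ) (x q : ℕ) : ℝ :=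
  ∑ v ∈ S.filter (fun v : ℕ => 0 < c + κ * (v : ℤ) ∧ (c + κ * (v : ℤ)).toNat.Coprime q),
    w v * (psi x q (c + κ * (v : ℤ)).toNat - (x : ℝ) / Nat.totient q)

/-- Let `δ` be a graph whose edges are labelled with the digits in base `b`, let `x₀` be a vertex, and let `ρ > 0` be such
that there are at most `ρ ^ (2 n)` closed walks of the length `2 n` at `x₀`, for all `n`. Let `D`, `κ ≠ 0`, `B`, `T`, `U`
and `ε > 0` be fixed, let `k` be large and `N = b ^ k`, and let `y` be a vertex such that the number of the walks of the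
length `k` from `x₀` to `y` is at least `ρ ^ k / k ^ D`. Let `c` be an arbitrary integer with `|c| ≤ B N`, let `w(v)` be
arbitrary real coefficients with `|w(v)| ≤ k ^ T`, and for every modulus `q` let `x(q) ≤ B N` be an arbitrary height. Then
the sum over ALL moduli `q ≤ N ^ (1 - ε)` of the ABSOLUTE VALUE of the sum of `w(v) (ψ(x(q); q, a_v) - x(q) / φ(q))`, over
the integers `v` whose `k` digits are the labels of a walk from `x₀` to `y` and for which the residue `a_v = c + κ v` is
positive and coprime to `q`, is at most the number of these walks times `N / k ^ U`.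

(For a group of polynomial growth, a free group, or any group with the property of rapid decay, there are at least
`ρ ^ k / k ^ D` closed walks of every even length `k` in the Cayley graph, where `ρ` is its spectral radius.) -/
theorem result (b : ℕ) (X : Type) (δ : X → ℕ → Option X) (hG : Graph b δ) (x₀ : X) (ρ : ℝ) (hρ : 0 < ρ)
    (hR : ∀ n : ℕ, ((walks b δ (2 * n) x₀ x₀).card : ℝ) ≤ ρ ^ (2 * n)) (D : ℕ) (κ : ℤ) (hκ : κ ≠ 0) (B T U : ℕ)
    (ε : ℝ) (hε : 0 < ε) :
    ∃ k₀ : ℕ, ∀ k : ℕ, k₀ ≤ k → ∀ y : X, ρ ^ k / (k : ℝ) ^ D ≤ (walks b δ k x₀ y).card → ∀ c : ℤ, |c| ≤ B * (b : ℤ) ^ k →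
      ∀ w : ℕ → ℝ, (∀ v, |w v| ≤ (k : ℝ) ^ T) → ∀ x : ℕ → ℕ, (∀ q, x q ≤ B * b ^ k) →
      ∑ q ∈ Icc 1 ⌊((b ^ k : ℕ) : ℝ) ^ (1 - ε)⌋₊, |total (walks b δ k x₀ y) κ c w (x q) q| ≤
        (walks b δ k x₀ y).card * (((b ^ k : ℕ) : ℝ) / (k : ℝ) ^ U) := by
  classical
  obtain ⟨k₀, h0⟩ := Pool.Agent.N625.DY.cls_avg (Pool.Agent.N625.GW.w_cls (δ := δ) ⟨hG.symm, hG.two⟩ x₀ ρ hρ hR D κ hκ)
    B T U ε hε
  refine ⟨k₀ + 1, fun k hk y hy c hc w hw x hx => ?_⟩
  have hk1 : (0 : ℝ) < (k : ℝ) ^ D := by
    have : (0 : ℝ) < k := by exact_mod_cast (by omega : 0 < k)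
    positivity
  have hy' : ρ ^ k ≤ (k : ℝ) ^ D * (walks b δ k x₀ y).card := by
    rw [div_le_iff₀ hk1, mul_comm] at hy
    exact hy
  obtain ⟨S, hS⟩ : ∃ S, S = Pool.Agent.N625.GW.walks b δ k x₀ y := ⟨_, rfl⟩
  have hSS : walks b δ k x₀ y = S := hS.symm
  rw [hSS] at hy' ⊢
  have hpos : (0 : ℝ) < S.card := by
    have h2 : 0 < ρ ^ k := by positivity
    by_contra h3
    have h4 : (S.card : ℝ) = 0 := le_antisymm (not_lt.1 h3) (Nat.cast_nonneg _)
    rw [h4, mul_zero] at hy'
    linarith
  have h1 := h0 k (by omega) _ ⟨y, by rw [← hS]; exact hy', rfl⟩ c hc w hw x hx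
  rw [← hS] at h1
  have hsub : S ⊆ range (b ^ k) := by rw [hS]; exact Pool.Agent.N625.GW.w_sub k x₀ y
  have e1 : ∀ q, |∑ v ∈ (range (b ^ k)).filter (fun v => 0 < c + κ * (v : ℕ) ∧ (c + κ * (v : ℕ)).toNat.Coprime q),
      (if v ∈ S then 1 / (S.card : ℝ) else 0) * (w v * Pool.Agent.N625.DY.Err (x q) q (c + κ * (v : ℕ)).toNat)| =
      |total S κ c w (x q) q| / S.card := by
    intro q
    have e2 : ∑ v ∈ (range (b ^ k)).filter (fun v => 0 < c + κ * (v : ℕ) ∧ (c + κ * (v : ℕ)).toNat.Coprime q),
        (if v ∈ S then 1 / (S.card : ℝ) else 0) * (w v * Pool.Agent.N625.DY.Err (x q) q (c + κ * (v : ℕ)).toNat) =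
        1 / (S.card : ℝ) * total S κ c w (x q) q := by
      unfold total
      rw [mul_sum, sum_filter, sum_filter, ← sum_subset hsub (by
        intro v _ hv
        rw [if_neg hv, zero_mul]
        split_ifs <;> rfl)]
      apply sum_congr rfl
      intro v hv
      rw [if_pos hv]
      rfl
    rw [e2, abs_mul, abs_of_pos (by positivity), one_div, inv_mul_eq_div]
  simp only [e1] at h1
  rw [← sum_div, div_le_iff₀ hpos] at h1
  rw [mul_comm]
  exact h1

end Pool.Agent.Results.MP_848d44_nt.WalkAverages
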